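import Pool.Agent.Z704.Defs

/-!
# Z704-TAM (helper949 for helper700): the product of the Tamagawa numbers, any sign
-/

set_option autoImplicit false
set_option linter.style.haveILetI false

open Finset

namespace Pool.Agent.Y949.Z704

open Pool.Agent.Y700 Pool.Agent.Z704

theorem dvd_Delta {M : ℤ} (hM : M % 4 = 1) {p : ℕ} (hp : p.Prime) :
    (p : ℤ) ∣ (WM M).Δ ↔ p ∣ 14 ∨ p ∣ M.natAbs := by
  have e : (-(2 ^ 6 * 7 ^ 3) * M ^ 6 : ℤ).natAbs = 2 ^ 6 * 7 ^ 3 * M.natAbs ^ 6 := by
    rw [Int.natAbs_mul, Int.natAbs_pow]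
    rfl
  rw [Delta_WM hM, Int.natCast_dvd, e, hp.dvd_mul, hp.dvd_mul]
  constructor
  · rintro ((h | h) | h)
    · exact Or.inl ((hp.dvd_of_dvd_pow h).trans (by norm_num))
    · exact Or.inl ((hp.dvd_of_dvd_pow h).trans (by norm_num))
    · exact Or.inr (hp.dvd_of_dvd_pow h)
  · rintro (h | h)
    · rw [show (14 : ℕ) = 2 * 7 by norm_num, hp.dvd_mul] at h
      rcases h with h | h
      · exact Or.inl (Or.inl (dvd_pow h (by norm_num)))
      · exact Or.inl (Or.inr (dvd_pow h (by norm_num)))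
    · exact Or.inr (dvd_pow h (by norm_num))

theorem t_TAM : S_TAM := by
  classical
  intro tE tIN tSP t2 t7 P S hP hS M hM h4 hsqM
  have hPp : ∀ q ∈ P, q.Prime := fun q hq => (hP q hq).1
  have hSp : ∀ q ∈ S, q.Prime := fun q hq => (hS q hq).1
  have hM0 : M ≠ 0 := by
    rintro rfl
    norm_num at h4
  have hdisj : Disjoint P S := by
    rw [Finset.disjoint_left]
    intro q h1 h2
    exact (hS q h2).2.2.2 (hP q h1).2.2.2
  have hpf : (WM M).Δ.natAbs.primeFactors = {2, 7} ∪ (P ∪ S) := by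
    ext l
    have hΔ : (WM M).Δ ≠ 0 := by
      rw [Delta_WM h4]
      exact mul_ne_zero (by norm_num) (pow_ne_zero 6 hM0)
    rw [Nat.mem_primeFactors]
    constructor
    · rintro ⟨hl, hd, -⟩
      have hd' : (l : ℤ) ∣ (WM M).Δ := Int.natCast_dvd.2 hd
      rw [dvd_Delta h4 hl] at hd'
      rcases hd' with h | h
      · rw [show (14 : ℕ) = 2 * 7 by norm_num, hl.dvd_mul] at h
        rcases h with h | h
        · have := (Nat.prime_dvd_prime_iff_eq hl Nat.prime_two).1 h
          simp [this]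
        · have := (Nat.prime_dvd_prime_iff_eq hl (by norm_num : Nat.Prime 7)).1 h
          simp [this]
      · rw [hM, hl.dvd_mul] at h
        rcases h with h | h
        · have := Pool.Agent.Y687.dvd_prod_primes hPp hl h
          simp [this]
        · have := Pool.Agent.Y687.dvd_prod_primes hSp hl h
          simp [this]
    · intro h
      simp only [Finset.mem_union, Finset.mem_insert, Finset.mem_singleton] at h
      have key : l.Prime ∧ (l ∣ 14 ∨ l ∣ M.natAbs) := by
        rcases h with (rfl | rfl) | h | h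
        · exact ⟨Nat.prime_two, Or.inl (by norm_num)⟩
        · exact ⟨by norm_num, Or.inl (by norm_num)⟩
        · refine ⟨hPp l h, Or.inr ?_⟩
          rw [hM]
          exact dvd_mul_of_dvd_left (Finset.dvd_prod_of_mem _ h) _
        · refine ⟨hSp l h, Or.inr ?_⟩
          rw [hM]
          exact dvd_mul_of_dvd_right (Finset.dvd_prod_of_mem _ h) _
      refine ⟨key.1, ?_, by simpa using hΔ⟩
      exact Int.natCast_dvd.1 ((dvd_Delta h4 key.1).2 key.2)
  set F : ℕ → ℕ := fun l => if h : l.Prime then (haveI := Fact.mk h; tam (WM M) l) else 1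
    with hF
  have hprod : tamProd (WM M) = F 2 * F 7 * ((∏ q ∈ P, F q) * ∏ q ∈ S, F q) := by
    have e : tamProd (WM M) = ∏ l ∈ (WM M).Δ.natAbs.primeFactors, F l := by
      unfold tamProd
      refine Finset.prod_congr rfl fun l _ => ?_
      simp only [hF]
    rw [e, hpf, Finset.prod_union, Finset.prod_union hdisj, Finset.prod_pair (by norm_num)]
    rw [Finset.disjoint_left]
    intro l hl hl'
    simp only [Finset.mem_insert, Finset.mem_singleton, Finset.mem_union] at hl hl'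
    rcases hl' with h | h
    · have := hP l h
      omega
    · have := hS l h
      omega
  have hF' : ∀ l : ℕ, ∀ (h : Fact l.Prime), F l = tam (WM M) l := by
    intro l h
    simp only [hF]
    rw [dif_pos h.out]
  have nsq : ∀ l : ℕ, l.Prime → ¬ ((l : ℤ) ^ 2 ∣ M) := by
    intro l hl hd
    have h1 := hsqM l (by rw [← sq]; exact hd)
    rw [Int.isUnit_iff] at h1
    have := hl.one_lt
    omega
  -- the factor at `2`
  obtain ⟨o2, ho2, e2⟩ : ∃ k, Odd k ∧ F 2 = 2 * k := by
    apply odd_of_val_one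
    rw [hF' 2 ⟨Nat.prime_two⟩]
    exact t2 tE M h4
  have h7M : ¬ (7 : ℤ) ∣ M := by
    intro h
    have h7 : (7 : ℕ) ∣ M.natAbs := Int.natCast_dvd.1 (by exact_mod_cast h)
    rw [hM, (by norm_num : Nat.Prime 7).dvd_mul] at h7
    rcases h7 with h7 | h7
    · exact (hP 7 (Pool.Agent.Y687.dvd_prod_primes hPp (by norm_num) h7)).2.2.1 rfl
    · exact (hS 7 (Pool.Agent.Y687.dvd_prod_primes hSp (by norm_num) h7)).2.2.1 rfl
  have o7 : Odd (F 7) := by
    rw [hF' 7 ⟨by norm_num⟩]
    exact t7 tE ⟨by norm_num⟩ M h4 h7M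
  have eP : ∏ q ∈ P, F q = 4 ^ P.card := by
    rw [Finset.prod_congr rfl (g := fun _ => 4), Finset.prod_const]
    intro q hq
    haveI : Fact q.Prime := ⟨hPp q hq⟩
    obtain ⟨-, n2, n7, n3⟩ := hP q hq
    rw [hF' q ⟨hPp q hq⟩]
    refine tSP tE M q h4 n2 n7 (Int.natCast_dvd.2 ?_) (nsq q (hPp q hq)) n3
    rw [hM]
    exact dvd_mul_of_dvd_left (Finset.dvd_prod_of_mem _ hq) _
  have eS : ∏ q ∈ S, F q = 2 ^ S.card := by
    rw [Finset.prod_congr rfl (g := fun _ => 2), Finset.prod_const]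
    intro q hq
    haveI : Fact q.Prime := ⟨hSp q hq⟩
    obtain ⟨-, n2, n7, n3⟩ := hS q hq
    rw [hF' q ⟨hSp q hq⟩]
    refine tIN tE M q h4 n2 n7 (Int.natCast_dvd.2 ?_) (nsq q (hSp q hq)) n3
    rw [hM]
    exact dvd_mul_of_dvd_right (Finset.dvd_prod_of_mem _ hq) _
  refine ⟨o2 * F 7, ho2.mul o7, ?_⟩
  rw [hprod, e2, eP, eS, pow_add, pow_add, pow_mul]
  norm_num
  ring

end Pool.Agent.Y949.Z704
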